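import Pool.Agent.Helper89.PG.GlueA

/-!
# Block H2 (gluing along a face): the theorem, with the independence of the tubes as a hypothesis
-/

set_option autoImplicit false

namespace Pool.Agent.Helper89.PG

open MeasureTheory ProbabilityTheory Filter Pool.Agent.Helper79.GR Pool.Agent.Helper79.GQ
open Pool.Agent.Helper51.NP (hk)

variable {Ω : Type*} [MeasurableSpace Ω] {P : Measure Ω} {d : ℕ} {X : Edge d → Ω → ℝ}
  {ν : Measure ℝ} {a b : ℝ}

theorem b_pos (h : Env P X ν a b) (hd : 1 ≤ d) : 0 < b := by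
  have := h.prob
  obtain ⟨ω⟩ := nonempty_of_isProbabilityMeasure P
  have h1 := h.bd (ed 0 (⟨0, hd⟩, true)) ω
  have h2 := h.apos
  linarith

private theorem n1_err (v' : F d) (R J : ℕ) (hJ : J ≤ R) :
    n1 (fl R v' - fl J v' - fl (R - J) v') ≤ 3 * d := by
  have h1 : rv (fl R v' - fl J v' - fl (R - J) v') =
      ((rv (fl R v') - (R : ℝ) • v') - (rv (fl J v') - (J : ℝ) • v')) -
        (rv (fl (R - J) v') - ((R - J : ℕ) : ℝ) • v') := by
    rw [rv_sub, rv_sub, Nat.cast_sub hJ, sub_smul]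
    abel
  rw [← nr_rv, h1]
  have h2 := nr_sub_le ((rv (fl R v') - (R : ℝ) • v') - (rv (fl J v') - (J : ℝ) • v'))
    (rv (fl (R - J) v') - ((R - J : ℕ) : ℝ) • v')
  have h3 := nr_sub_le (rv (fl R v') - (R : ℝ) • v') (rv (fl J v') - (J : ℝ) • v')
  have h4 := nr_fl R v'
  have h5 := nr_fl J v'
  have h6 := nr_fl (R - J) v'
  linarith

/-- the means along `v'` -/
theorem mean_along (h : Env P X ν a b) (hb : 0 ≤ b) (v' : F d) {C' : ℝ}
    (hr : ∀ n : ℕ, mm P X (fl n v') ≤ n + C' * √n) (R J : ℕ) (hJ : J ≤ R) :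
    mm P X (fl J v') + mm P X (fl R v' - fl J v') ≤ R + 2 * |C'| * √R + 3 * b * d := by
  have hJ' : (J : ℝ) ≤ R := by exact_mod_cast hJ
  have hRJ : ((R - J : ℕ) : ℝ) = R - J := Nat.cast_sub hJ
  have h1 := hr J
  have h2 := hr (R - J)
  have h3 := (abs_le.1 ((subM_mm h).lip (fl R v' - fl J v') (fl (R - J) v'))).2
  have h4 := mul_le_mul_of_nonneg_left (n1_err v' R J hJ) hb
  have h5 : C' * √J ≤ |C'| * √R :=
    mul_le_mul (le_abs_self _) (Real.sqrt_le_sqrt hJ') (Real.sqrt_nonneg _) (abs_nonneg _)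
  have h6 : C' * √((R - J : ℕ) : ℝ) ≤ |C'| * √R := by
    refine mul_le_mul (le_abs_self _) (Real.sqrt_le_sqrt ?_) (Real.sqrt_nonneg _) (abs_nonneg _)
    rw [hRJ]
    linarith [Nat.cast_nonneg (α := ℝ) J]
  rw [hRJ] at h2
  rw [hRJ] at h6
  nlinarith

/-- the fluctuations along `v'` -/
theorem fluct_along (h : Env P X ν a b) (v' : F d) (q : V d) (R J : ℕ) (hJ : J ≤ R) (hR : 1 ≤ R) :
    ∫ ω, max (T (cf X ω) 0 (fl J v') - mm P X (fl J v')) 0 ∂P ≤
      4 * √(|hk a b b + 1| * (nr v' + d) * R) ∧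
    ∫ ω, max (T (cf X ω) (fl J v' + q) (fl R v' + q) - mm P X (fl R v' - fl J v')) 0 ∂P ≤
      4 * √(|hk a b b + 1| * (nr v' + d) * R) := by
  have hJ' : (J : ℝ) ≤ R := by exact_mod_cast hJ
  have hJ0 : (0 : ℝ) ≤ J := Nat.cast_nonneg _
  have hR' : (1 : ℝ) ≤ R := by exact_mod_cast hR
  have hv := nr_nonneg v'
  have hd0 : (0 : ℝ) ≤ d := Nat.cast_nonneg _
  constructor
  · have h1 := Pool.Agent.Helper51.NP.pos_part h 0 (fl J v')
    rw [sub_zero] at h1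
    refine h1.trans (mul_le_mul_of_nonneg_left (Real.sqrt_le_sqrt ?_) (by norm_num))
    rw [mul_assoc]
    refine mul_le_mul (le_abs_self _) ?_ (n1_nonneg _) (abs_nonneg _)
    have h2 := n1_fl_le J v'
    nlinarith
  · have h1 := Pool.Agent.Helper51.NP.pos_part h (fl J v' + q) (fl R v' + q)
    rw [add_sub_add_right_eq_sub] at h1
    refine h1.trans (mul_le_mul_of_nonneg_left (Real.sqrt_le_sqrt ?_) (by norm_num))
    rw [mul_assoc]
    refine mul_le_mul (le_abs_self _) ?_ (n1_nonneg _) (abs_nonneg _)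
    have h2 := n1_fl_sub_le R J hJ v'
    nlinarith

private theorem sizes {K C : ℕ} {L Φ c' nq : ℝ} {r w : ℕ} (hK1 : 1 ≤ K) (hL1 : 1 ≤ L)
    (hφq : L ^ 2 ≤ C * Φ * nq) (h3 : nq ≤ Real.exp (C * K)) (hΦ0 : 0 ≤ Φ) (hc'0 : 0 < c')
    (hwc : (w : ℝ) ≤ (K : ℝ) ^ C * L / c') (hr' : r = K ^ (C + 2)) :
    ((r * w : ℕ) : ℝ) ≤ C * Φ / c' * Real.exp ((3 * C + 2) * K) := by
  have hK1' : (1 : ℝ) ≤ K := by exact_mod_cast hK1
  have hKexp : ∀ m : ℕ, (K : ℝ) ^ m ≤ Real.exp (m * K) := by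
    intro m
    rw [Real.exp_nat_mul]
    have h7 := Real.add_one_le_exp (K : ℝ)
    exact pow_le_pow_left₀ (by linarith) (by linarith) m
  have hLexp : L ≤ C * Φ * Real.exp (C * K) := by
    have h7 : L ≤ L ^ 2 := by nlinarith
    have h8 := mul_le_mul_of_nonneg_left h3 (show 0 ≤ C * Φ by positivity)
    linarith
  rw [Nat.cast_mul]
  have h7 : (r : ℝ) ≤ Real.exp ((C + 2 : ℕ) * K) := by
    rw [hr', Nat.cast_pow]
    exact hKexp (C + 2)
  have h8 : (w : ℝ) ≤ C * Φ / c' * Real.exp (2 * C * K) := by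
    refine hwc.trans ?_
    rw [div_mul_eq_mul_div]
    refine div_le_div_of_nonneg_right ?_ hc'0.le
    calc (K : ℝ) ^ C * L ≤ Real.exp (C * K) * (C * Φ * Real.exp (C * K)) :=
          mul_le_mul (hKexp C) hLexp (by linarith) (Real.exp_pos _).le
      _ = C * Φ * (Real.exp (C * K) * Real.exp (C * K)) := by ring
      _ = C * Φ * Real.exp (2 * C * K) := by
          rw [← Real.exp_add]
          congr 2
          ring
  calc (r : ℝ) * w ≤ Real.exp ((C + 2 : ℕ) * K) * (C * Φ / c' * Real.exp (2 * C * K)) :=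
        mul_le_mul h7 h8 (Nat.cast_nonneg _) (Real.exp_pos _).le
    _ = C * Φ / c' * (Real.exp ((C + 2 : ℕ) * K) * Real.exp (2 * C * K)) := by ring
    _ = C * Φ / c' * Real.exp ((3 * C + 2) * K) := by
        rw [← Real.exp_add]
        congr 2
        push_cast
        ring

private theorem fin_num {Ρ b D C' k₁ s : ℝ} {r : ℕ} (hr1 : (1 : ℝ) ≤ r) (hs : 1 ≤ s)
    (h0 : 0 ≤ Ρ * D + 3 * b * D) :
    Ρ * D + 3 * b * D + 2 * |C'| * s + r * (2 * (4 * (√k₁ * s))) ≤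
      r * (Ρ * D + 3 * b * D + 2 * |C'| + 8 * √k₁) * s := by
  have h7 : 1 ≤ r * s := one_le_mul_of_one_le_of_one_le hr1 hs
  have h8 : Ρ * D + 3 * b * D ≤ (Ρ * D + 3 * b * D) * (r * s) :=
    le_mul_of_one_le_right h0 h7
  have h9 : 2 * |C'| * s ≤ 2 * |C'| * (r * s) := by
    refine mul_le_mul_of_nonneg_left ?_ (by positivity)
    exact le_mul_of_one_le_left (by linarith) hr1
  nlinarith

theorem glue_of_indep (h : Env P X ν a b) (hd : 1 ≤ d)
    (hindep : ∀ (R : Finset (Edge d)) (q : V d) (t : ℝ) (r : ℕ) (z : Fin r → V d),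
      (∀ i j, i ≠ j → ∀ e ∈ R, ∀ e' ∈ R, ∀ x ∈ e.1, ∀ x' ∈ e'.1, z i + x ≠ z j + x') →
      P.real {ω | ∀ j, t < T (cf X ω) (z j) (z j + q)} ≤
        (1 - P.real {ω | T (Helper79.PG.cut (4 * b) R (cf X ω)) 0 q ≤ t}) ^ r)
    {φ : F d →ₗ[ℝ] ℝ} {v : F d} {ρ : F d →ₗ[ℝ] ℝ} (hρ : ∀ x, ρ x ≤ tc (mm P X) x) {v' : F d}
    (hv' : ρ v' = 1) (hY : Helper79.PG.Yp φ v v' ≠ 0) {C' : ℝ}
    (hr : ∀ n : ℕ, mm P X (fl n v') ≤ n + C' * √n) (C : ℕ) :
    ∃ K₁ : ℕ, ∀ (K : ℕ) (q : V d) (R : Finset (Edge d)) (L : ℝ), K₁ ≤ K → 2 ^ K ≤ L →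
      L ^ 2 ≤ C * φ (rv q) → n1 q ≤ Real.exp (C * K) →
      (∀ e ∈ R, ∀ x ∈ e.1, nr (Helper79.PG.Yp φ v (rv x)) ≤ K ^ C * L) →
      1 / (K : ℝ) ^ C ≤
        P.real {ω | T (Helper79.PG.cut (4 * b) R (cf X ω)) 0 q ≤ tc (mm P X) (rv q) - L} →
      ρ (rv q) ≠ tc (mm P X) (rv q) := by
  have hP := h.prob
  have hb := b_pos h hd
  have ha := h.apos
  have hS := subM_mm h
  obtain ⟨Φ, hΦ0, hΦ⟩ := lin_bd φ
  obtain ⟨Ρ, hΡ0, hΡ⟩ := lin_bd ρ
  have hd0 : (0 : ℝ) ≤ d := Nat.cast_nonneg _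
  have hvn := nr_nonneg v
  have hvn' := nr_nonneg v'
  obtain ⟨κ, hκ⟩ : ∃ κ, κ = 1 + Φ * nr v := ⟨_, rfl⟩
  have hκ0 : 0 ≤ κ := by
    rw [hκ]
    positivity
  obtain ⟨c, hc⟩ : ∃ c, c = nr (Helper79.PG.Yp φ v v') := ⟨_, rfl⟩
  have hc0 : 0 < c := by
    rw [hc]
    exact lt_of_lt_of_le (norm_pos_iff.2 hY) (norm_le_nr _)
  obtain ⟨c', hc'⟩ : ∃ c', c' = c / (3 + 2 * (d * κ) + c) := ⟨_, rfl⟩
  have hc'0 : 0 < c' := by
    rw [hc']
    positivity
  obtain ⟨k₁, hk₁⟩ : ∃ k₁, k₁ = |hk a b b + 1| * (nr v' + d) := ⟨_, rfl⟩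
  have hk₁0 : 0 ≤ k₁ := by
    rw [hk₁]
    positivity
  obtain ⟨C₄, hC₄⟩ : ∃ C₄, C₄ = Ρ * d + 3 * b * d + 2 * |C'| + 8 * √k₁ := ⟨_, rfl⟩
  have hC₄0 : 0 ≤ C₄ := by
    rw [hC₄]
    positivity
  obtain ⟨A₀, hA₀⟩ : ∃ A₀, A₀ = b * (nr v' * (C * Φ / c') + d + 1) + (3 * C + 2) := ⟨_, rfl⟩
  have hA₀0 : 0 ≤ b * (nr v' * (C * Φ / c') + d + 1) := by positivity
  obtain ⟨K₂, hK₂⟩ := Pool.Agent.Helper30.PG.shift_le C C₄ c' hc'0 hC₄0
  obtain ⟨K₃, hK₃⟩ := Pool.Agent.Helper30.PG.fail_le C A₀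
  obtain ⟨K₄, hK₄⟩ := exists_nat_ge (C * Φ / a)
  refine ⟨max (max K₂ K₃) (max K₄ 1), fun K q R L hK h1 h2 h3 h5 h6 heq => ?_⟩
  have hKK₂ : K₂ ≤ K := (le_max_left _ _).trans ((le_max_left _ _).trans hK)
  have hKK₃ : K₃ ≤ K := (le_max_right _ _).trans ((le_max_left _ _).trans hK)
  have hKK₄ : K₄ ≤ K := (le_max_left _ _).trans ((le_max_right _ _).trans hK)
  have hK1 : 1 ≤ K := (le_max_right _ _).trans ((le_max_right _ _).trans hK)
  have hK1' : (1 : ℝ) ≤ K := by exact_mod_cast hK1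
  have hL1 : 1 ≤ L := (one_le_pow₀ (by norm_num)).trans h1
  have hL0 : 0 < L := by linarith
  have hKC : (1 : ℝ) ≤ (K : ℝ) ^ C := one_le_pow₀ hK1'
  have hnq := n1_nonneg q
  -- `L² ≤ C Φ |q|`
  have hφq : L ^ 2 ≤ C * Φ * n1 q := by
    refine h2.trans ?_
    rw [mul_assoc]
    exact mul_le_mul_of_nonneg_left ((le_abs_self _).trans (hΦ (rv q))) (Nat.cast_nonneg _)
  have hC1 : (1 : ℝ) ≤ C := by
    rcases Nat.eq_zero_or_pos C with h0 | h0
    · subst h0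
      rw [Nat.cast_zero, zero_mul, zero_mul] at hφq
      nlinarith
    · exact_mod_cast h0
  -- `0 ≤ t`
  have ht : 0 ≤ tc (mm P X) (rv q) - L := by
    have h7 : a * n1 q ≤ tc (mm P X) (rv q) := le_tc hS (rv q)
    have h8 : C * Φ / a ≤ L := by
      refine hK₄.trans ?_
      have h9 : (K₄ : ℝ) ≤ K := by exact_mod_cast hKK₄
      have h10 : (K : ℝ) ≤ 2 ^ K := by
        have := (Nat.lt_two_pow_self (n := K)).le
        exact_mod_cast this
      linarith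
    rw [div_le_iff₀ ha] at h8
    have h9 : L * L ≤ L * (a * n1 q) := by
      calc L * L = L ^ 2 := by ring
        _ ≤ C * Φ * n1 q := hφq
        _ ≤ L * a * n1 q := mul_le_mul_of_nonneg_right h8 hnq
        _ = L * (a * n1 q) := by ring
    have h10 := le_of_mul_le_mul_left h9 hL0
    linarith
  obtain ⟨W, hW⟩ : ∃ W, W = (K : ℝ) ^ C * L := ⟨_, rfl⟩
  have hW1 : 1 ≤ W := by
    rw [hW]
    exact one_le_mul_of_one_le_of_one_le hKC hL1
  obtain ⟨w, hw⟩ : ∃ w, w = ⌈(2 * W + 2 * (d * κ) + 1) / c⌉₊ := ⟨_, rfl⟩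
  have hwl : 2 * W + 2 * (d * κ) < w * c := by
    have h7 := Nat.le_ceil ((2 * W + 2 * (d * κ) + 1) / c)
    rw [← hw, div_le_iff₀ hc0] at h7
    linarith
  have hwc : (w : ℝ) ≤ W / c' := by
    have h7 := (Nat.ceil_lt_add_one (a := (2 * W + 2 * (d * κ) + 1) / c) (by positivity)).le
    rw [← hw] at h7
    refine h7.trans ?_
    rw [hc', div_div_eq_mul_div, div_add_one hc0.ne', div_le_div_iff_of_pos_right hc0]
    have h8 : 0 ≤ (W - 1) * (1 + 2 * (d * κ) + c) := by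
      apply mul_nonneg
      · linarith
      · positivity
    nlinarith
  have hw1 : 1 ≤ w := by
    rcases Nat.eq_zero_or_pos w with h0 | h0
    · rw [h0, Nat.cast_zero, zero_mul] at hwl
      have : 0 ≤ (d : ℝ) * κ := mul_nonneg hd0 hκ0
      linarith
    · exact h0
  obtain ⟨r, hr'⟩ : ∃ r, r = K ^ (C + 2) := ⟨_, rfl⟩
  have hr1 : 1 ≤ r := by
    rw [hr']
    exact Nat.one_le_pow _ _ hK1
  have hrw1 : 1 ≤ r * w := Nat.one_le_iff_ne_zero.2 (by positivity)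
  have hrw1' : (1 : ℝ) ≤ ((r * w : ℕ) : ℝ) := by exact_mod_cast hrw1
  have hjr : ∀ j : Fin r, (j : ℕ) * w ≤ r * w := fun j => Nat.mul_le_mul_right _ j.2.le
  -- the probability that all the tubes are bad
  have hbad : P.real {ω | ∀ j : Fin r, tc (mm P X) (rv q) - L <
      T (cf X ω) (fl ((j : ℕ) * w) v') (fl ((j : ℕ) * w) v' + q)} ≤
      (1 - 1 / (K : ℝ) ^ C) ^ r := by
    refine (hindep R q (tc (mm P X) (rv q) - L) r (fun j => fl ((j : ℕ) * w) v') ?_).trans ?_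
    · intro i j hij e he e' he' x hx x' hx'
      refine shift_ne φ v v' (W := W) hΦ0 hΦ hc w ?_ (fun hh => hij (Fin.ext hh)) ?_ ?_
      · rw [← hκ]
        exact hwl
      · rw [hW]
        exact h5 e he x hx
      · rw [hW]
        exact h5 e' he' x' hx'
    · exact pow_le_pow_left₀ (sub_nonneg.2 measureReal_le_one) (by linarith) r
  have hN0 : 0 ≤ b * n1 (fl (r * w) v' + q) := mul_nonneg hb.le (n1_nonneg _)
  have hmain := glue_mean h q (fl (r * w) v') (tc (mm P X) (rv q) - L)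
    (((r * w : ℕ) : ℝ) + 2 * |C'| * √((r * w : ℕ) : ℝ) + 3 * b * d)
    (4 * √(|hk a b b + 1| * (nr v' + d) * ((r * w : ℕ) : ℝ)))
    ((1 - 1 / (K : ℝ) ^ C) ^ r) (b * n1 (fl (r * w) v' + q)) r (fun j => fl ((j : ℕ) * w) v')
    le_rfl hN0 hbad (fun j => mean_along h hb.le v' hr (r * w) (j * w) (hjr j))
    (fun j => (fluct_along h v' q (r * w) (j * w) (hjr j) hrw1).1)
    (fun j => (fluct_along h v' q (r * w) (j * w) (hjr j) hrw1).2) (by positivity)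
  -- the lower bound
  have hlow : ((r * w : ℕ) : ℝ) - Ρ * d + ρ (rv q) ≤ mm P X (fl (r * w) v' + q) := by
    have h7 := hρ (rv (fl (r * w) v' + q))
    have h8 := mul_tc_le hS (fl (r * w) v' + q) 1
    rw [Nat.cast_one, one_mul, one_smul] at h8
    rw [rv_add', map_add] at h7
    have h9 : ρ (rv (fl (r * w) v')) = ((r * w : ℕ) : ℝ) +
        ρ (rv (fl (r * w) v') - ((r * w : ℕ) : ℝ) • v') := by
      rw [map_sub, map_smul, hv', smul_eq_mul]
      ring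
    have h10 := (abs_le.1 (hΡ (rv (fl (r * w) v') - ((r * w : ℕ) : ℝ) • v'))).1
    have h11 := mul_le_mul_of_nonneg_left (nr_fl (r * w) v') hΡ0
    rw [rv_add'] at h8
    linarith
  -- the failure term
  have hexp1 : (1 : ℝ) ≤ Real.exp ((3 * C + 2) * K) := Real.one_le_exp (by positivity)
  have hrwe : ((r * w : ℕ) : ℝ) ≤ C * Φ / c' * Real.exp ((3 * C + 2) * K) :=
    sizes hK1 hL1 hφq h3 hΦ0 hc'0 (by rw [← hW]; exact hwc) hr'
  have hNle : b * n1 (fl (r * w) v' + q) ≤ A₀ * Real.exp (A₀ * K) := by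
    have h7 := n1_add_le (fl (r * w) v') q
    have h8 := n1_fl_le (r * w) v'
    have h9 : Real.exp (C * K) ≤ Real.exp ((3 * C + 2) * K) := by
      rw [Real.exp_le_exp]
      refine mul_le_mul_of_nonneg_right ?_ (by linarith)
      linarith
    have h10 := mul_le_mul_of_nonneg_right hrwe hvn'
    have h11 : n1 (fl (r * w) v' + q) ≤
        (nr v' * (C * Φ / c') + d + 1) * Real.exp ((3 * C + 2) * K) := by
      have h12 := mul_le_mul_of_nonneg_left hexp1 hd0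
      nlinarith
    have h12 : Real.exp ((3 * C + 2) * K) ≤ Real.exp (A₀ * K) := by
      rw [Real.exp_le_exp, hA₀]
      refine mul_le_mul_of_nonneg_right ?_ (by linarith)
      linarith
    calc b * n1 (fl (r * w) v' + q)
        ≤ b * ((nr v' * (C * Φ / c') + d + 1) * Real.exp ((3 * C + 2) * K)) :=
          mul_le_mul_of_nonneg_left h11 hb.le
      _ = b * (nr v' * (C * Φ / c') + d + 1) * Real.exp ((3 * C + 2) * K) := by ring
      _ ≤ A₀ * Real.exp (A₀ * K) := by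
          refine mul_le_mul ?_ h12 (Real.exp_pos _).le ?_
          · rw [hA₀]
            have : (0 : ℝ) ≤ 3 * C + 2 := by positivity
            linarith
          · rw [hA₀]
            positivity
  have hfail := hK₃ K hKK₃ _ hNle
  rw [← hr'] at hfail
  -- the shift
  have hshift := hK₂ K hKK₂ L h1
  have hsq : √((r * w : ℕ) : ℝ) ≤
      √(C * ((K ^ (C + 2) : ℕ) : ℝ) * (((K : ℝ) ^ C * L + C) / c')) := by
    refine Real.sqrt_le_sqrt ?_
    rw [Nat.cast_mul, ← hr']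
    have h7 : (w : ℝ) ≤ ((K : ℝ) ^ C * L + C) / c' := by
      refine hwc.trans (div_le_div_of_nonneg_right ?_ hc'0.le)
      rw [hW]
      linarith
    have h8 : (r : ℝ) ≤ C * r := le_mul_of_one_le_left (Nat.cast_nonneg _) hC1
    exact mul_le_mul h8 h7 (Nat.cast_nonneg _) (by positivity)
  rw [← hr'] at hshift hsq
  have hsq1 : 1 ≤ √((r * w : ℕ) : ℝ) := Real.one_le_sqrt.2 hrw1'
  have hr1' : (1 : ℝ) ≤ r := by exact_mod_cast hr1
  have hsplit : √(|hk a b b + 1| * (nr v' + d) * ((r * w : ℕ) : ℝ)) =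
      √k₁ * √((r * w : ℕ) : ℝ) := by
    rw [← hk₁, Real.sqrt_mul hk₁0]
  rw [hsplit] at hmain
  have hfin : Ρ * d + 3 * b * d + 2 * |C'| * √((r * w : ℕ) : ℝ) +
      r * (2 * (4 * (√k₁ * √((r * w : ℕ) : ℝ)))) ≤ r * C₄ * √((r * w : ℕ) : ℝ) := by
    rw [hC₄]
    exact fin_num hr1' hsq1 (by positivity)
  have hlast : r * C₄ * √((r * w : ℕ) : ℝ) ≤
      r * C₄ * √(C * (r : ℝ) * (((K : ℝ) ^ C * L + C) / c')) :=
    mul_le_mul_of_nonneg_left hsq (by positivity)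
  rw [heq] at hlow
  linarith

end Pool.Agent.Helper89.PG
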