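import Pool.Agent.Helper51.NP.B
import Pool.Agent.Helper79.PG.Defs
import Pool.Agent.Helper30.PG.Num

/-!
# Block H2 (gluing along a face): the probabilistic step and the geometric lemmas
-/

set_option autoImplicit false

namespace Pool.Agent.Helper89.PG

open MeasureTheory ProbabilityTheory Filter Pool.Agent.Helper79.GR Pool.Agent.Helper79.GQ

section prob

variable {Ω : Type*} [MeasurableSpace Ω] {P : Measure Ω} {d : ℕ} {X : Edge d → Ω → ℝ}
  {ν : Measure ℝ} {a b : ℝ}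

private theorem int_pos (h : Env P X ν a b) (x y : V d) (m : ℝ) :
    Integrable (fun ω => max (T (cf X ω) x y - m) 0) P := by
  have := h.prob
  exact (((integrable_T h x y).sub (integrable_const m)).pos_part)

/-- one good passage `z j → z j + q` of cost at most `t` is enough: the mean of `T(0, y + q)` -/
theorem glue_mean (h : Env P X ν a b) (q y : V d) (t A S p N : ℝ) (r : ℕ) (z : Fin r → V d)
    (hN : b * n1 (y + q) ≤ N) (hN0 : 0 ≤ N)
    (hbad : P.real {ω | ∀ j, t < T (cf X ω) (z j) (z j + q)} ≤ p)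
    (hA : ∀ j, mm P X (z j) + mm P X (y - z j) ≤ A)
    (hS1 : ∀ j, ∫ ω, max (T (cf X ω) 0 (z j) - mm P X (z j)) 0 ∂P ≤ S)
    (hS2 : ∀ j, ∫ ω, max (T (cf X ω) (z j + q) (y + q) - mm P X (y - z j)) 0 ∂P ≤ S)
    (htA : 0 ≤ t + A) :
    mm P X (y + q) ≤ t + A + r * (2 * S) + p * N := by
  have hP := h.prob
  have hmeas : MeasurableSet {ω | ∀ j, t < T (cf X ω) (z j) (z j + q)} := by
    have : {ω | ∀ j, t < T (cf X ω) (z j) (z j + q)} =
        ⋂ j, {ω | t < T (cf X ω) (z j) (z j + q)} := by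
      ext ω
      simp
    rw [this]
    exact MeasurableSet.iInter fun j => measurableSet_lt measurable_const (measurable_T h _ _)
  have hIj : ∀ j : Fin r, Integrable (fun ω => (max (T (cf X ω) 0 (z j) - mm P X (z j)) 0 +
      max (T (cf X ω) (z j + q) (y + q) - mm P X (y - z j)) 0)) P := fun j =>
    (int_pos h _ _ _).add (int_pos h _ _ _)
  have hI1 : Integrable (fun ω => ∑ j : Fin r, (max (T (cf X ω) 0 (z j) - mm P X (z j)) 0 +
      max (T (cf X ω) (z j + q) (y + q) - mm P X (y - z j)) 0)) P :=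
    integrable_finsetSum _ fun j _ => hIj j
  have hI2 : Integrable ({ω | ∀ j, t < T (cf X ω) (z j) (z j + q)}.indicator
      (fun _ => N)) P := (integrable_const N).indicator hmeas
  have hpt : ∀ ω, T (cf X ω) 0 (y + q) ≤ (t + A) +
      (∑ j : Fin r, (max (T (cf X ω) 0 (z j) - mm P X (z j)) 0 +
        max (T (cf X ω) (z j + q) (y + q) - mm P X (y - z j)) 0)) +
      {ω | ∀ j, t < T (cf X ω) (z j) (z j + q)}.indicator (fun _ => N) ω := by
    intro ω
    have hb := h.cf_bd ω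
    have hnn : ∀ j : Fin r, 0 ≤ (max (T (cf X ω) 0 (z j) - mm P X (z j)) 0 +
        max (T (cf X ω) (z j + q) (y + q) - mm P X (y - z j)) 0) := fun j =>
      add_nonneg (le_max_right _ _) (le_max_right _ _)
    by_cases hω : ∀ j, t < T (cf X ω) (z j) (z j + q)
    · rw [Set.indicator_of_mem (show ω ∈ {ω | ∀ j, t < T (cf X ω) (z j) (z j + q)} from hω)]
      have h1 := T_le hb 0 (y + q)
      rw [sub_zero] at h1
      have h2 := Finset.sum_nonneg fun j (_ : j ∈ Finset.univ) => hnn j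
      linarith
    · rw [Set.indicator_of_notMem (show ω ∉ {ω | ∀ j, t < T (cf X ω) (z j) (z j + q)} from hω),
        add_zero]
      push Not at hω
      obtain ⟨j, hj⟩ := hω
      have h1 := T_triangle hb 0 (z j) (y + q)
      have h2 := T_triangle hb (z j) (z j + q) (y + q)
      have h3 := Finset.single_le_sum (f := fun j : Fin r =>
        (max (T (cf X ω) 0 (z j) - mm P X (z j)) 0 +
        max (T (cf X ω) (z j + q) (y + q) - mm P X (y - z j)) 0)) (fun j _ => hnn j)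
        (Finset.mem_univ j)
      have h4 := le_max_left (T (cf X ω) 0 (z j) - mm P X (z j)) 0
      have h5 := le_max_left (T (cf X ω) (z j + q) (y + q) - mm P X (y - z j)) 0
      have h6 := hA j
      linarith
  have hI3 : Integrable (fun ω => (t + A) +
      (∑ j : Fin r, (max (T (cf X ω) 0 (z j) - mm P X (z j)) 0 +
        max (T (cf X ω) (z j + q) (y + q) - mm P X (y - z j)) 0))) P :=
    (integrable_const _).add hI1
  have hint : ∫ ω, T (cf X ω) 0 (y + q) ∂P ≤ ∫ ω, ((t + A) +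
      (∑ j : Fin r, (max (T (cf X ω) 0 (z j) - mm P X (z j)) 0 +
        max (T (cf X ω) (z j + q) (y + q) - mm P X (y - z j)) 0)) +
      {ω | ∀ j, t < T (cf X ω) (z j) (z j + q)}.indicator (fun _ => N) ω) ∂P :=
    integral_mono (integrable_T h _ _) (hI3.add hI2) hpt
  rw [integral_add hI3 hI2, integral_add (integrable_const _) hI1,
    integral_const, integral_finsetSum _ fun j _ => hIj j,
    integral_indicator_const N hmeas] at hint
  have hsum : ∑ j : Fin r, ∫ ω, (max (T (cf X ω) 0 (z j) - mm P X (z j)) 0 +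
        max (T (cf X ω) (z j + q) (y + q) - mm P X (y - z j)) 0) ∂P ≤
      ∑ _j : Fin r, (2 * S) := by
    refine Finset.sum_le_sum fun j _ => ?_
    rw [integral_add (int_pos h _ _ _) (int_pos h _ _ _)]
    have := hS1 j
    have := hS2 j
    linarith
  rw [Finset.sum_const, Finset.card_univ, Fintype.card_fin, nsmul_eq_mul] at hsum
  have h7 : P.real {ω | ∀ j, t < T (cf X ω) (z j) (z j + q)} * N ≤ p * N :=
    mul_le_mul_of_nonneg_right hbad hN0
  rw [probReal_univ, one_smul, smul_eq_mul] at hint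
  show ∫ ω, T (cf X ω) 0 (y + q) ∂P ≤ _
  linarith

end prob

section geo

variable {d : ℕ}

theorem lin_bd (φ : F d →ₗ[ℝ] ℝ) : ∃ C : ℝ, 0 ≤ C ∧ ∀ x, |φ x| ≤ C * nr x := by
  refine ⟨‖LinearMap.toContinuousLinearMap φ‖, norm_nonneg _, fun x => ?_⟩
  have h1 := (LinearMap.toContinuousLinearMap φ).le_opNorm x
  rw [Real.norm_eq_abs] at h1
  exact h1.trans (mul_le_mul_of_nonneg_left (norm_le_nr x) (norm_nonneg _))

theorem Yp_sub (φ : F d →ₗ[ℝ] ℝ) (v x y : F d) :
    Helper79.PG.Yp φ v (x - y) = Helper79.PG.Yp φ v x - Helper79.PG.Yp φ v y := by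
  unfold Helper79.PG.Yp
  rw [map_sub, sub_smul]
  abel

theorem Yp_smul (φ : F d →ₗ[ℝ] ℝ) (v x : F d) (t : ℝ) :
    Helper79.PG.Yp φ v (t • x) = t • Helper79.PG.Yp φ v x := by
  unfold Helper79.PG.Yp
  rw [map_smul, smul_sub, smul_eq_mul, mul_smul]

theorem nr_Yp_le (φ : F d →ₗ[ℝ] ℝ) (v : F d) {C : ℝ} (hC : ∀ x, |φ x| ≤ C * nr x) (x : F d) :
    nr (Helper79.PG.Yp φ v x) ≤ (1 + C * nr v) * nr x := by
  unfold Helper79.PG.Yp
  rw [sub_eq_add_neg]
  have h1 := nr_add_le x (-(φ x • v))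
  rw [nr_neg, nr_smul] at h1
  have h2 := mul_le_mul_of_nonneg_right (hC x) (nr_nonneg v)
  linarith

theorem nr_sub_le (x y : F d) : nr (x - y) ≤ nr x + nr y := by
  rw [sub_eq_add_neg]
  have := nr_add_le x (-y)
  rwa [nr_neg] at this

/-- points of the tube shifted by different multiples of `w v'` are different -/
theorem shift_ne (φ : F d →ₗ[ℝ] ℝ) (v v' : F d) {C c W : ℝ} (hC0 : 0 ≤ C)
    (hC : ∀ x, |φ x| ≤ C * nr x) (hc : c = nr (Helper79.PG.Yp φ v v')) (w : ℕ)
    (hw : 2 * W + 2 * (d * (1 + C * nr v)) < w * c) {i j : ℕ} (hij : i ≠ j) {x x' : V d}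
    (hx : nr (Helper79.PG.Yp φ v (rv x)) ≤ W) (hx' : nr (Helper79.PG.Yp φ v (rv x')) ≤ W) :
    fl (i * w) v' + x ≠ fl (j * w) v' + x' := by
  intro he
  have hk : 0 ≤ 1 + C * nr v := by
    have := mul_nonneg hC0 (nr_nonneg v)
    linarith
  have h1 : rv (fl (i * w) v') - rv (fl (j * w) v') = rv x' - rv x := by
    rw [← rv_sub, ← rv_sub]
    congr 1
    rw [sub_eq_sub_iff_add_eq_add, he]
    abel
  have h2 : nr (Helper79.PG.Yp φ v (rv (fl (i * w) v') - rv (fl (j * w) v'))) ≤ 2 * W := by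
    rw [h1, Yp_sub]
    have := nr_sub_le (Helper79.PG.Yp φ v (rv x')) (Helper79.PG.Yp φ v (rv x))
    linarith
  have h3 : (((i * w : ℕ) : ℝ) - ((j * w : ℕ) : ℝ)) • v' =
      (rv (fl (i * w) v') - rv (fl (j * w) v')) -
      ((rv (fl (i * w) v') - ((i * w : ℕ) : ℝ) • v') -
        (rv (fl (j * w) v') - ((j * w : ℕ) : ℝ) • v')) := by
    rw [sub_smul]
    abel
  have h4 : nr (Helper79.PG.Yp φ v ((((i * w : ℕ) : ℝ) - ((j * w : ℕ) : ℝ)) • v')) ≤
      2 * W + 2 * (d * (1 + C * nr v)) := by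
    rw [h3, Yp_sub]
    have h5 := nr_sub_le (Helper79.PG.Yp φ v (rv (fl (i * w) v') - rv (fl (j * w) v')))
      (Helper79.PG.Yp φ v ((rv (fl (i * w) v') - ((i * w : ℕ) : ℝ) • v') -
        (rv (fl (j * w) v') - ((j * w : ℕ) : ℝ) • v')))
    have h6 := nr_Yp_le φ v hC ((rv (fl (i * w) v') - ((i * w : ℕ) : ℝ) • v') -
        (rv (fl (j * w) v') - ((j * w : ℕ) : ℝ) • v'))
    have h7 := nr_sub_le (rv (fl (i * w) v') - ((i * w : ℕ) : ℝ) • v')
      (rv (fl (j * w) v') - ((j * w : ℕ) : ℝ) • v')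
    have h8 := nr_fl (i * w) v'
    have h9 := nr_fl (j * w) v'
    have h10 := mul_le_mul_of_nonneg_left (h7.trans (add_le_add h8 h9)) hk
    linarith
  rw [Yp_smul, nr_smul, ← hc] at h4
  have h11 : (w : ℝ) ≤ |((i * w : ℕ) : ℝ) - ((j * w : ℕ) : ℝ)| := by
    have h12 : (1 : ℝ) ≤ |(i : ℝ) - (j : ℝ)| := by
      have h13 : (1 : ℤ) ≤ |(i : ℤ) - (j : ℤ)| :=
        Int.one_le_abs (sub_ne_zero.2 (by exact_mod_cast hij))
      have h14 : ((1 : ℤ) : ℝ) ≤ ((|(i : ℤ) - (j : ℤ)| : ℤ) : ℝ) := by exact_mod_cast h13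
      simpa using h14
    rw [Nat.cast_mul, Nat.cast_mul, ← sub_mul, abs_mul,
      abs_of_nonneg (Nat.cast_nonneg w : (0 : ℝ) ≤ (w : ℝ))]
    nlinarith [Nat.cast_nonneg (α := ℝ) w]
  have h15 : 0 ≤ c := hc ▸ nr_nonneg _
  have h16 := mul_le_mul_of_nonneg_right h11 h15
  linarith

end geo

end Pool.Agent.Helper89.PG
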